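import Mathlib
import Pool.Agent.Helper37.KW.Final

/-! Partial answer to MP_93aa28_lc, Q1: it is decidable whether the language of a given automaton is the
factor set of a code with at most k words (k is part of the input, the length of the words is not
bounded). -/

namespace Pool.Agent.Results.MP_93aa28_lc.BoundedCardinality

open Pool.Agent.Helper31.BD

theorem result :
    ∃ f : (ℕ × List ℕ × ℕ × List ℕ) × ℕ → Bool, Computable f ∧
      ∀ (x : ℕ × List ℕ × ℕ × List ℕ) (k : ℕ), (f (x, k) = true ↔
        ∃ C : Finset (List ℕ), UD C ∧ C.card ≤ k ∧ LX x = Fac C) :=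
  Pool.Agent.Helper37.KW.final

end Pool.Agent.Results.MP_93aa28_lc.BoundedCardinality
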