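import Mathlib
import Pool.Agent.Helper37.DE.Final

/-! Partial answer to MP_93aa28_lc, Q1: a computable function of an automaton and a number d decides
whether the language is the factor set of a finite code of defect at most d, and every finite code has a
finite defect. -/

namespace Pool.Agent.Results.MP_93aa28_lc.BoundedDefect

open Pool.Agent.Helper31.BD Pool.Agent.Helper37.DE

theorem result :
    ∃ f : (ℕ × List ℕ × ℕ × List ℕ) × ℕ → Bool, Computable f ∧
      ∀ x : ℕ × List ℕ × ℕ × List ℕ,
        (∀ d : ℕ, (f (x, d) = true ↔ ∃ C : Finset (List ℕ), UD C ∧ Dfc C d ∧ LX x = Fac C)) ∧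
        ((∃ C : Finset (List ℕ), UD C ∧ LX x = Fac C) ↔ ∃ d : ℕ, f (x, d) = true) :=
  final

end Pool.Agent.Results.MP_93aa28_lc.BoundedDefect
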