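import Mathlib
import Pool.Agent.Helper31.BD.L

/-! Partial answer to MP_93aa28_lc, Q1: it is decidable whether the language of a given automaton is
the factor set of a finite code with bounded deciphering delay (in one of the two directions). -/

namespace Pool.Agent.Results.MP_93aa28_lc.BoundedDelay

open Pool.Agent.Helper31.BD

theorem result : ∃ f : ℕ × List ℕ × ℕ × List ℕ → Bool, Computable f ∧
    ∀ x : ℕ × List ℕ × ℕ × List ℕ, (f x = true ↔
      ∃ C : Finset (List ℕ), UD C ∧ (∃ D : ℕ, BDD C D ∨ BDD (revC C) D) ∧ LX x = Fac C) :=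
  final

end Pool.Agent.Results.MP_93aa28_lc.BoundedDelay
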