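import Mathlib
import Pool.Agent.Helper37.RZ.B

/-! MP_93aa28_lc: languages given by constraints on the lengths of monochromatic blocks which are
factor sets of finite codes. -/

namespace Pool.Agent.Results.MP_93aa28_lc.RunLengths

open Pool.Agent.Helper31.BD Pool.Agent.Helper37.RV Pool.Agent.Helper37.RW
open Pool.Agent.Helper37.RX (Closed AllClosed)
open Pool.Agent.Helper37.RZ (Exceptional)

theorem result (N : ℕ) (π : ℕ → ℕ) (n : ℕ) (S : ℕ → Set ℕ) (hn : 2 ≤ n)
    (hsur : ∀ c < n, ∃ l < N, π l = c) (hne : ∀ c < n, ∃ j ∈ S c, 0 < j)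
    (hE : n = 2 ∨ ∀ c < n, ¬ Exceptional (S c)) :
    (∃ C : Finset (List ℕ), UD C ∧ ColLang N π n S = Fac C) ↔
      AllClosed n S ∧ {c | c < n ∧ ¬ Neutral (S c)}.ncard ≤ 2 :=
  Pool.Agent.Helper37.RZ.main_all N π n S hn hsur hne hE

end Pool.Agent.Results.MP_93aa28_lc.RunLengths
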